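import Pool.Agent.H7.KC.Stmts
import Pool.Agent.H67.GU.GGP

/-!
# Board kc15, row GGJ: two good strangers owe nothing (after helper93's proof of GGG)
-/

set_option autoImplicit false

open Finset

namespace Pool.KC7

open Pool.Agent.H23.KT Pool.Agent.H46.KW Pool.KQ Pool.GT7 Pool.GU7 Pool.HZ7 Pool.IA7

theorem GGJ_e1 (p : ℕ) (hp : 2 ≤ p) : 0 < e1 p ∧ ((p : ℝ) + 2) * e1 p ≤ 1 / 400 := by
  have hp2 : (2 : ℝ) ≤ p := by exact_mod_cast hp
  constructor
  · unfold e1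
    positivity
  · unfold e1
    rw [mul_one_div, div_le_div_iff₀ (by positivity) (by norm_num)]
    have h5 : (5 : ℝ) ≤ (p : ℝ) + 3 := by linarith
    have h25 : (25 : ℝ) ≤ ((p : ℝ) + 3) ^ 2 := by nlinarith
    have : ((p : ℝ) + 3) ^ 3 = ((p : ℝ) + 3) * ((p : ℝ) + 3) ^ 2 := by ring
    rw [this]
    nlinarith

theorem GGJ_thm (hG : GCJStmt) (hSTG : Pool.KR.STGStmt) (hK : CCK0Stmt) : GGJStmt := by
  intro p w r hP
  obtain ⟨hW, hφ0, hφ1, hφ2, -, -⟩ := hG p w r hP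
  have hrb := hW.rb
  have hrp := hW.rp
  have hp2 : 2 ≤ p := by omega
  have hr1 : 1 ≤ r := by omega
  obtain ⟨hE0, hE⟩ := GGJ_e1 p hp2
  have hp2' : (2 : ℝ) ≤ p := by exact_mod_cast hp2
  have hrp' : (r : ℝ) ≤ p := by exact_mod_cast hrp
  obtain ⟨e₀, he0, he1, H⟩ := GGP_stg hSTG p r (by omega)
  refine ⟨min e₀ (e1 p / 2), lt_min he0 (by linarith), min_le_right _ _, ?_⟩
  intro C C₁
  obtain ⟨a₀, ha₀, H2⟩ := H C C₁
  have hs2 : 0 < s3 p := by
    unfold s3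
    positivity
  have hs2' : s3 p ≤ 1 / 4 := by
    unfold s3
    rw [div_le_iff₀ (by positivity)]
    have h1 : e1 p ≤ 1 := by nlinarith
    have h2 : (1 : ℝ) ≤ ((p : ℝ) + 3) ^ 2 := by nlinarith
    linarith
  obtain ⟨a₁, ha₁⟩ := exists_nat_ge (8 * (2 * |C|))
  refine ⟨max (max a₀ a₁) 2, ?_⟩
  intro a ha V _ _ G hG e hee hee0 v z P P' U U' hS hS' hz hk
  have ha2 : 2 ≤ a := le_trans (le_max_right _ _) ha
  have haa : a₀ ≤ a := le_trans (le_trans (le_max_left _ _) (le_max_left _ _)) ha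
  have hab : a₁ ≤ a := le_trans (le_trans (le_max_right _ _) (le_max_left _ _)) ha
  have ha2' : (2 : ℝ) ≤ a := by exact_mod_cast ha2
  have hab' : (a₁ : ℝ) ≤ a := by exact_mod_cast hab
  have hC8 : 8 * (2 * |C|) ≤ (a : ℝ) := le_trans ha₁ hab'
  have hee1 : e ≤ e₀ := le_trans hee0 (min_le_left _ _)
  have hee2 : e ≤ e1 p / 2 := le_trans hee0 (min_le_right _ _)
  have hco := H2 a haa G hG e hee hee1 v z P U hS hz hk
  have ha1 : 1 ≤ a := by omega
  have hlow : ((p : ℝ) + 2 - 1 / 200) * a ≤ ((p : ℝ) + 2) * ((1 - e - e1 p) * a) := by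
    have h1 : ((p : ℝ) + 2) * e ≤ 1 / 400 :=
      (mul_le_mul_of_nonneg_left (by linarith) (by linarith)).trans hE
    have h2 : (p : ℝ) + 2 - 1 / 200 ≤ ((p : ℝ) + 2) * (1 - e - e1 p) := by linarith
    calc ((p : ℝ) + 2 - 1 / 200) * a ≤ ((p : ℝ) + 2) * (1 - e - e1 p) * a :=
          mul_le_mul_of_nonneg_right h2 (by linarith)
      _ = _ := by ring
  obtain ⟨hsub, -⟩ := GGP_core (r := r) hG.deg ha1 hS hS' hz hco (by nlinarith) (by nlinarith)
  have hn : ((nb G (un P) z).card : ℝ) ≤ 2 * |C| := by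
    have h1 : nb G (un P) z ⊆ U ∪ U' := by
      refine subset_trans ?_ hsub
      intro y hy
      rw [mem_nb] at hy
      obtain ⟨hy1, hy2⟩ := hy
      unfold Pool.KR.co
      rw [mem_nb]
      refine ⟨?_, hy2⟩
      refine (hS.cov y).2 (Or.inr ?_)
      unfold un at hy1
      rw [mem_biUnion] at hy1
      obtain ⟨i, -, hi⟩ := hy1
      exact ⟨i, hi⟩
    have h2 := card_le_card h1
    have h3 := card_union_le U U'
    have h4 : ((nb G (un P) z).card : ℝ) ≤ (U.card : ℝ) + (U'.card : ℝ) := by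
      exact_mod_cast h2.trans h3
    have h5 := hS.cU
    have h6 := hS'.cU
    have h7 := le_abs_self C
    linarith
  have hTZ : 0 ≤ TZ G p r (un P) z := by
    have hcb : CB G (nb G univ v) (p + 3) := CB.nb hG.cb (mem_univ v)
    obtain ⟨-, -, -, h4⟩ := hK G p 0 r a e C (nb G univ v) P U ⟨Nat.zero_le _, hr1, hrp⟩ hS hee
      hee2 hcb z hz
    have h5 : (0 : ℝ) ≤ cc G p (un P) (p + 2) z := Nat.cast_nonneg _
    have h6 : (0 : ℝ) ≤ cc G p (un P) (p + 1) z := Nat.cast_nonneg _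
    linarith
  have hM : 0 ≤ Mt p w r a := by
    unfold Mt c1
    positivity
  have hMT : 0 ≤ Mt p w r a * TZ G p r (un P) z := mul_nonneg hM hTZ
  have hkc : (kc G (nb G (un P) z) (w + 1) : ℝ) ≤ 1 / 4 * (a : ℝ) ^ (w + 1) := by
    have h1 : (kc G (nb G (un P) z) (w + 1) : ℝ) ≤ ((nb G (un P) z).card : ℝ) ^ (w + 1) := by
      have h2 := kc_le_choose G (nb G (un P) z) (w + 1)
      have h3 := Nat.choose_le_pow (nb G (un P) z).card (w + 1)
      exact_mod_cast h2.trans h3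
    have h4 : ((nb G (un P) z).card : ℝ) ≤ 1 / 4 * a := by
      have := abs_nonneg C
      linarith
    have h5 : ((nb G (un P) z).card : ℝ) ^ (w + 1) ≤ (1 / 4 * (a : ℝ)) ^ (w + 1) :=
      pow_le_pow_left₀ (Nat.cast_nonneg _) h4 _
    have h6 : (1 / 4 * (a : ℝ)) ^ (w + 1) ≤ 1 / 4 * (a : ℝ) ^ (w + 1) := by
      rw [mul_pow]
      refine mul_le_mul_of_nonneg_right ?_ (by positivity)
      calc ((1 : ℝ) / 4) ^ (w + 1) ≤ ((1 : ℝ) / 4) ^ 1 :=
            pow_le_pow_of_le_one (by norm_num) (by norm_num) (by omega)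
        _ = 1 / 4 := pow_one _
    linarith
  unfold ndj
  refine max_eq_left ?_
  have hap : (0 : ℝ) ≤ (a : ℝ) ^ (w + 1) := by positivity
  have h1 : 1 / 2 * (a : ℝ) ^ (w + 1) ≤ c1 p w * (1 - pt p w r) * (a : ℝ) ^ (w + 1) :=
    mul_le_mul_of_nonneg_right hφ2.le hap
  have h2 : s3 p * (a : ℝ) ^ (w + 1) ≤ 1 / 4 * (a : ℝ) ^ (w + 1) :=
    mul_le_mul_of_nonneg_right hs2' hap
  linarith

end Pool.KC7
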